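import Mathlib

/-!
# Arbitrary sets in short hosts: Gauss sum inversion and Plancherel (rows H2, H3)
-/

set_option autoImplicit false

namespace Pool.Agent.PH

open Finset

variable {p : ℕ} [Fact p.Prime]

/-- the additive character at `t x` -/
noncomputable def ec (t x : ZMod p) : ℂ := ZMod.stdAddChar (N := p) (t * x)

theorem ec_norm (t x : ZMod p) : ‖ec t x‖ = 1 := by
  unfold ec
  exact AddChar.norm_apply _ _

theorem ec_add_left (s t x : ZMod p) : ec (s + t) x = ec s x * ec t x := by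
  unfold ec
  rw [add_mul, AddChar.map_add_eq_mul]

theorem ec_add_right (t x y : ZMod p) : ec t (x + y) = ec t x * ec t y := by
  unfold ec
  rw [mul_add, AddChar.map_add_eq_mul]

theorem ec_zero_left (x : ZMod p) : ec 0 x = 1 := by
  unfold ec
  rw [zero_mul, AddChar.map_zero_eq_one]

/-- Gauss sum inversion, at every point `x` -/
theorem GSI {χ : MulChar (ZMod p) ℂ} (hχ : χ ≠ 1) (x : ZMod p) :
    χ x * gaussSum χ⁻¹ (ZMod.stdAddChar (N := p)) = ∑ t : ZMod p, χ⁻¹ t * ec t x := by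
  have hi : χ⁻¹ ≠ 1 := by
    intro h
    exact hχ (inv_eq_one.1 h)
  by_cases hx : x = 0
  · subst hx
    have h0 : χ (0 : ZMod p) = 0 := MulChar.map_nonunit χ not_isUnit_zero
    rw [h0, zero_mul]
    have h1 : ∑ t : ZMod p, χ⁻¹ t * ec t 0 = ∑ t : ZMod p, χ⁻¹ t := by
      refine Finset.sum_congr rfl fun t _ => ?_
      unfold ec
      rw [mul_zero, AddChar.map_zero_eq_one, mul_one]
    rw [h1, MulChar.sum_eq_zero_of_ne_one hi]
  · have hu := gaussSum_mulShift χ⁻¹ (ZMod.stdAddChar (N := p)) (Units.mk0 x hx)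
    have h2 : gaussSum χ⁻¹ ((ZMod.stdAddChar (N := p)).mulShift ((Units.mk0 x hx : (ZMod p)ˣ) : ZMod p)) =
        ∑ t : ZMod p, χ⁻¹ t * ec t x := by
      unfold gaussSum ec
      refine Finset.sum_congr rfl fun t _ => ?_
      rw [AddChar.mulShift_apply, Units.val_mk0, mul_comm x t]
    rw [h2, Units.val_mk0] at hu
    rw [← hu, ← mul_assoc]
    have h3 : χ x * χ⁻¹ x = 1 := by
      rw [← MulChar.mul_apply, mul_inv_cancel, MulChar.one_apply (isUnit_iff_ne_zero.2 hx)]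
    rw [h3, one_mul]

theorem GSN {χ : MulChar (ZMod p) ℂ} (hχ : χ ≠ 1) :
    ‖gaussSum χ (ZMod.stdAddChar (N := p))‖ = Real.sqrt p := by
  have h1 := gaussSum_mul_gaussSum_eq_card hχ (ZMod.isPrimitive_stdAddChar p)
  rw [← star_gaussSum_eq] at h1
  have h2 : ‖gaussSum χ (ZMod.stdAddChar (N := p))‖ ^ 2 = (p : ℝ) := by
    have h3 := congrArg norm h1
    rw [norm_mul, norm_star] at h3
    rw [sq, h3]
    simp [ZMod.card]
  rw [← h2, Real.sqrt_sq (norm_nonneg _)]

/-- orthogonality -/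
theorem ec_sum (x : ZMod p) : ∑ t : ZMod p, ec t x = if x = 0 then (p : ℂ) else 0 := by
  unfold ec
  have h := AddChar.sum_mulShift x (ZMod.isPrimitive_stdAddChar p)
  rw [ZMod.card] at h
  rw [h]
  split_ifs <;> simp

theorem ec_conj (t x : ZMod p) : (starRingEnd ℂ) (ec t x) = ec t (-x) := by
  unfold ec
  rw [mul_neg, AddChar.map_neg_eq_conj]

/-- Plancherel -/
theorem PLA (f : ZMod p → ℂ) :
    ∑ t : ZMod p, ‖∑ x : ZMod p, f x * ec t x‖ ^ 2 = p * ∑ x : ZMod p, ‖f x‖ ^ 2 := by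
  have h1 : ∀ t : ZMod p, ((‖∑ x : ZMod p, f x * ec t x‖ ^ 2 : ℝ) : ℂ) =
      ∑ x : ZMod p, ∑ y : ZMod p, f x * (starRingEnd ℂ) (f y) * ec t (x - y) := by
    intro t
    rw [Complex.ofReal_pow, ← Complex.mul_conj', map_sum, Finset.sum_mul_sum]
    refine Finset.sum_congr rfl fun x _ => Finset.sum_congr rfl fun y _ => ?_
    rw [map_mul, ec_conj, sub_eq_add_neg, ec_add_right]
    ring
  have h2 : ((∑ t : ZMod p, ‖∑ x : ZMod p, f x * ec t x‖ ^ 2 : ℝ) : ℂ) =
      ((p * ∑ x : ZMod p, ‖f x‖ ^ 2 : ℝ) : ℂ) := by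
    rw [Complex.ofReal_sum, Finset.sum_congr rfl fun t _ => h1 t, Finset.sum_comm]
    rw [Finset.sum_congr rfl fun x _ => Finset.sum_comm]
    have h3 : ∀ x : ZMod p, ∑ y : ZMod p, ∑ t : ZMod p,
        f x * (starRingEnd ℂ) (f y) * ec t (x - y) = ((p * ‖f x‖ ^ 2 : ℝ) : ℂ) := by
      intro x
      rw [Finset.sum_eq_single x]
      · rw [← Finset.mul_sum, ec_sum, if_pos (sub_self x)]
        push_cast
        rw [Complex.mul_conj']
        ring
      · intro y _ hy
        rw [← Finset.mul_sum, ec_sum, if_neg (sub_ne_zero.2 (Ne.symm hy)), mul_zero]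
      · intro h
        exact absurd (Finset.mem_univ x) h
    rw [Finset.sum_congr rfl fun x _ => h3 x]
    push_cast
    rw [Finset.mul_sum]
  exact_mod_cast h2

end Pool.Agent.PH
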