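import Mathlib
import Pool.Agent.helper81.PH.GSI

/-!
# Arbitrary sets in short hosts: the core estimate (row H4)
-/

set_option autoImplicit false

namespace Pool.Agent.PH

open Finset

section
variable {p : ℕ} [Fact p.Prime]

/-- Plancherel for a sum over a finite set, shifted -/
theorem PLAs (A : Finset (ZMod p)) (G : ZMod p → ℂ) (x : ZMod p) :
    ∑ t : ZMod p, ‖∑ a ∈ A, G a * ec t (a - x)‖ ^ 2 = p * ∑ a ∈ A, ‖G a‖ ^ 2 := by
  classical
  have h1 : ∀ t : ZMod p, ‖∑ a ∈ A, G a * ec t (a - x)‖ =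
      ‖∑ a : ZMod p, (if a ∈ A then G a else 0) * ec t a‖ := by
    intro t
    have h2 : ∑ a ∈ A, G a * ec t (a - x) =
        ec t (-x) * ∑ a : ZMod p, (if a ∈ A then G a else 0) * ec t a := by
      rw [Finset.mul_sum]
      have h3 : ∀ a : ZMod p, ec t (-x) * ((if a ∈ A then G a else 0) * ec t a) =
          if a ∈ A then G a * ec t (a - x) else 0 := by
        intro a
        rw [sub_eq_add_neg, ec_add_right]
        split_ifs
        · ring
        · ring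
      rw [Finset.sum_congr rfl fun a _ => h3 a, Finset.sum_ite_mem, Finset.univ_inter]
    rw [h2, norm_mul, ec_norm, one_mul]
  rw [Finset.sum_congr rfl fun t _ => by rw [h1 t], PLA]
  have h4 : ∀ a : ZMod p, ‖(if a ∈ A then G a else 0)‖ ^ 2 = if a ∈ A then ‖G a‖ ^ 2 else 0 := by
    intro a
    split_ifs
    · rfl
    · simp
  rw [Finset.sum_congr rfl fun a _ => h4 a, Finset.sum_ite_mem, Finset.univ_inter]

theorem ec_sub_one (j : ℕ) (u : ZMod p) (M : ℝ) (hu : ((u.valMinAbs.natAbs : ℕ) : ℝ) ≤ M) :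
    ‖ec (j : ZMod p) u - 1‖ ≤ 2 * Real.pi * (j * M / p) := by
  have h1 : ec (j : ZMod p) u = Complex.exp (Complex.I * ((2 * Real.pi * (j * u.valMinAbs / p) : ℝ) : ℂ)) := by
    unfold ec
    have h2 : ((j : ZMod p) * u) = (((j : ℤ) * u.valMinAbs : ℤ) : ZMod p) := by
      push_cast
      rfl
    rw [h2, ZMod.stdAddChar_coe]
    congr 1
    push_cast
    ring
  rw [h1]
  refine (Real.norm_exp_I_mul_ofReal_sub_one_le).trans ?_
  rw [Real.norm_eq_abs, abs_mul, abs_of_pos Real.two_pi_pos]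
  refine mul_le_mul_of_nonneg_left ?_ Real.two_pi_pos.le
  rw [abs_div, abs_mul, Nat.abs_cast, Nat.abs_cast]
  have h3 : |((u.valMinAbs : ℤ) : ℝ)| = ((u.valMinAbs.natAbs : ℕ) : ℝ) := by
    rw [Nat.cast_natAbs, Int.cast_abs]
  rw [h3]
  have h4 : (0 : ℝ) ≤ j := Nat.cast_nonneg _
  have h5 : (0 : ℝ) ≤ p := Nat.cast_nonneg _
  exact div_le_div_of_nonneg_right (mul_le_mul_of_nonneg_left hu h4) h5

/-- the transform of the weights on `A`, centered at `x` -/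
noncomputable def tr (A : Finset (ZMod p)) (α : ZMod p → ℂ) (x t : ZMod p) : ℂ :=
  ∑ a ∈ A, α a * ec t (a - x)

theorem tr_sq (A : Finset (ZMod p)) (α : ZMod p → ℂ) (hα : ∀ a, ‖α a‖ ≤ 1) (x : ZMod p) :
    ∑ t : ZMod p, ‖tr A α x t‖ ^ 2 ≤ p * A.card := by
  unfold tr
  rw [PLAs]
  refine mul_le_mul_of_nonneg_left ?_ (Nat.cast_nonneg _)
  calc ∑ a ∈ A, ‖α a‖ ^ 2 ≤ ∑ a ∈ A, (1 : ℝ) := by
        refine Finset.sum_le_sum fun a _ => ?_
        have := hα a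
        have h0 := norm_nonneg (α a)
        nlinarith
    _ = A.card := by simp

theorem tr_sup (A : Finset (ZMod p)) (α : ZMod p → ℂ) (hα : ∀ a, ‖α a‖ ≤ 1) (x t : ZMod p) :
    ‖tr A α x t‖ ≤ A.card := by
  unfold tr
  refine (norm_sum_le _ _).trans ?_
  calc ∑ a ∈ A, ‖α a * ec t (a - x)‖ ≤ ∑ a ∈ A, (1 : ℝ) := by
        refine Finset.sum_le_sum fun a _ => ?_
        rw [norm_mul, ec_norm, mul_one]
        exact hα a
    _ = A.card := by simp

theorem tr_dif (A : Finset (ZMod p)) (α : ZMod p → ℂ) (hα : ∀ a, ‖α a‖ ≤ 1) (x : ZMod p) (M : ℝ)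
    (hA : ∀ a ∈ A, (((a - x).valMinAbs.natAbs : ℕ) : ℝ) ≤ M) (j : ℕ) :
    ∑ t : ZMod p, ‖tr A α x (t + j) - tr A α x t‖ ^ 2 ≤ p * A.card * (2 * Real.pi * (j * M / p)) ^ 2 := by
  have h1 : ∀ t : ZMod p, tr A α x (t + j) - tr A α x t =
      ∑ a ∈ A, (α a * (ec (j : ZMod p) (a - x) - 1)) * ec t (a - x) := by
    intro t
    unfold tr
    rw [← Finset.sum_sub_distrib]
    refine Finset.sum_congr rfl fun a _ => ?_
    rw [ec_add_left]
    ring
  rw [Finset.sum_congr rfl fun t _ => by rw [h1 t], PLAs, mul_assoc]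
  refine mul_le_mul_of_nonneg_left ?_ (Nat.cast_nonneg _)
  calc ∑ a ∈ A, ‖α a * (ec (j : ZMod p) (a - x) - 1)‖ ^ 2
      ≤ ∑ a ∈ A, (2 * Real.pi * (j * M / p)) ^ 2 := by
        refine Finset.sum_le_sum fun a ha => ?_
        have h2 : ‖α a * (ec (j : ZMod p) (a - x) - 1)‖ ≤ 2 * Real.pi * (j * M / p) := by
          rw [norm_mul]
          calc ‖α a‖ * ‖ec (j : ZMod p) (a - x) - 1‖ ≤ 1 * ‖ec (j : ZMod p) (a - x) - 1‖ :=
                mul_le_mul_of_nonneg_right (hα a) (norm_nonneg _)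
            _ ≤ 2 * Real.pi * (j * M / p) := by
                rw [one_mul]
                exact ec_sub_one j (a - x) M (hA a ha)
        exact pow_le_pow_left₀ (norm_nonneg _) h2 2
    _ = A.card * (2 * Real.pi * (j * M / p)) ^ 2 := by
        rw [Finset.sum_const, nsmul_eq_mul]

theorem cs_norm (u v : ZMod p → ℂ) {U V : ℝ} (hU : 0 ≤ U) (hV : 0 ≤ V)
    (h1 : ∑ t, ‖u t‖ ^ 2 ≤ U ^ 2) (h2 : ∑ t, ‖v t‖ ^ 2 ≤ V ^ 2) :
    ∑ t, ‖u t‖ * ‖v t‖ ≤ U * V := by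
  have h3 := Finset.sum_mul_sq_le_sq_mul_sq (Finset.univ : Finset (ZMod p)) (fun t => ‖u t‖) (fun t => ‖v t‖)
  have h4 : (∑ t, ‖u t‖ * ‖v t‖) ^ 2 ≤ (U * V) ^ 2 := by
    refine h3.trans ?_
    rw [mul_pow]
    exact mul_le_mul h1 h2 (Finset.sum_nonneg fun t _ => by positivity) (by positivity)
  exact abs_le_of_sq_le_sq' h4 (by positivity) |>.2

end

end Pool.Agent.PH
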