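import Mathlib
import Pool.Agent.helper81.PH.CORE

/-!
# Arbitrary sets in short hosts: the averaging inequality (row H4)
-/

set_option autoImplicit false

namespace Pool.Agent.PH

open Finset

section
variable {p : ℕ} [Fact p.Prime]

omit [Fact p.Prime] in
theorem mc_norm (χ : MulChar (ZMod p) ℂ) (t : ZMod p) : ‖χ t‖ ≤ 1 := by
  exact DirichletCharacter.norm_le_one χ t

/-- the double sum through the Gauss sum -/
theorem dual {χ : MulChar (ZMod p) ℂ} (hχ : χ ≠ 1) (A B : Finset (ZMod p)) (α β : ZMod p → ℂ)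
    (x y : ZMod p) :
    (∑ a ∈ A, ∑ b ∈ B, α a * β b * χ (a + b)) * gaussSum χ⁻¹ (ZMod.stdAddChar (N := p)) =
      ∑ t : ZMod p, χ⁻¹ t * ec t (x + y) * (tr A α x t * tr B β y t) := by
  have h1 : ∀ t : ZMod p, χ⁻¹ t * ec t (x + y) * (tr A α x t * tr B β y t) =
      ∑ a ∈ A, ∑ b ∈ B, α a * β b * (χ⁻¹ t * ec t (a + b)) := by
    intro t
    unfold tr
    rw [Finset.sum_mul_sum, Finset.mul_sum]
    refine Finset.sum_congr rfl fun a _ => ?_
    rw [Finset.mul_sum]
    refine Finset.sum_congr rfl fun b _ => ?_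
    have h2 : ec t (a + b) = ec t (x + y) * (ec t (a - x) * ec t (b - y)) := by
      rw [← ec_add_right, ← ec_add_right]
      congr 1
      ring
    rw [h2]
    ring
  have h5 : ∑ t : ZMod p, ∑ a ∈ A, ∑ b ∈ B, α a * β b * (χ⁻¹ t * ec t (a + b)) =
      ∑ a ∈ A, ∑ b ∈ B, ∑ t : ZMod p, α a * β b * (χ⁻¹ t * ec t (a + b)) := by
    rw [Finset.sum_comm]
    exact Finset.sum_congr rfl fun a _ => Finset.sum_comm
  rw [Finset.sum_congr rfl fun t _ => h1 t, h5, Finset.sum_mul]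
  refine Finset.sum_congr rfl fun a _ => ?_
  rw [Finset.sum_mul]
  refine Finset.sum_congr rfl fun b _ => ?_
  rw [← Finset.mul_sum, ← GSI hχ, mul_assoc]

theorem tr_prod_dif (A B : Finset (ZMod p)) (α β : ZMod p → ℂ) (hα : ∀ a, ‖α a‖ ≤ 1)
    (hβ : ∀ a, ‖β a‖ ≤ 1) (x y : ZMod p) (M : ℝ) (hM : 0 ≤ M)
    (hA : ∀ a ∈ A, (((a - x).valMinAbs.natAbs : ℕ) : ℝ) ≤ M)
    (hB : ∀ b ∈ B, (((b - y).valMinAbs.natAbs : ℕ) : ℝ) ≤ M) (j : ℕ) :
    ∑ t : ZMod p, ‖tr A α x (t + (j : ZMod p)) * tr B β y (t + (j : ZMod p)) - tr A α x t * tr B β y t‖ ≤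
      4 * Real.pi * (j * M / p) * (p * (Real.sqrt A.card * Real.sqrt B.card)) := by
  set D : ℝ := 2 * Real.pi * (j * M / p) with hD
  have hD0 : 0 ≤ D := by positivity
  set U : ℝ := Real.sqrt p * Real.sqrt A.card with hU
  set V : ℝ := Real.sqrt p * Real.sqrt B.card with hV
  have hU2 : U ^ 2 = p * A.card := by
    rw [hU, mul_pow, Real.sq_sqrt (Nat.cast_nonneg _), Real.sq_sqrt (Nat.cast_nonneg _)]
  have hV2 : V ^ 2 = p * B.card := by
    rw [hV, mul_pow, Real.sq_sqrt (Nat.cast_nonneg _), Real.sq_sqrt (Nat.cast_nonneg _)]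
  have hU0 : 0 ≤ U := by positivity
  have hV0 : 0 ≤ V := by positivity
  have h1 : ∑ t : ZMod p, ‖tr A α x (t + (j : ZMod p)) - tr A α x t‖ * ‖tr B β y (t + (j : ZMod p))‖ ≤
      (U * D) * V := by
    refine cs_norm (fun t => tr A α x (t + (j : ZMod p)) - tr A α x t)
      (fun t => tr B β y (t + (j : ZMod p)))
      (by positivity) hV0 ?_ ?_
    · rw [mul_pow, hU2]
      exact tr_dif A α hα x M hA j
    · rw [hV2]
      refine le_trans (le_of_eq ?_) (tr_sq B β hβ y)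
      exact Equiv.sum_comp (Equiv.addRight (j : ZMod p)) fun t => ‖tr B β y t‖ ^ 2
  have h2 : ∑ t : ZMod p, ‖tr A α x t‖ * ‖tr B β y (t + (j : ZMod p)) - tr B β y t‖ ≤ U * (V * D) := by
    refine cs_norm (fun t => tr A α x t) (fun t => tr B β y (t + (j : ZMod p)) - tr B β y t)
      hU0 (by positivity) ?_ ?_
    · rw [hU2]
      exact tr_sq A α hα x
    · rw [mul_pow, hV2]
      exact tr_dif B β hβ y M hB j
  have hUV : U * V = p * (Real.sqrt A.card * Real.sqrt B.card) := by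
    have h3 : Real.sqrt p * Real.sqrt p = p := Real.mul_self_sqrt (Nat.cast_nonneg _)
    rw [hU, hV]
    calc Real.sqrt p * Real.sqrt A.card * (Real.sqrt p * Real.sqrt B.card) =
        (Real.sqrt p * Real.sqrt p) * (Real.sqrt A.card * Real.sqrt B.card) := by ring
      _ = p * (Real.sqrt A.card * Real.sqrt B.card) := by rw [h3]
  calc ∑ t : ZMod p, ‖tr A α x (t + (j : ZMod p)) * tr B β y (t + (j : ZMod p)) - tr A α x t * tr B β y t‖
      ≤ ∑ t : ZMod p, (‖tr A α x (t + (j : ZMod p)) - tr A α x t‖ * ‖tr B β y (t + (j : ZMod p))‖ +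
          ‖tr A α x t‖ * ‖tr B β y (t + (j : ZMod p)) - tr B β y t‖) := by
        refine Finset.sum_le_sum fun t _ => ?_
        have h4 : tr A α x (t + (j : ZMod p)) * tr B β y (t + (j : ZMod p)) - tr A α x t * tr B β y t =
            (tr A α x (t + (j : ZMod p)) - tr A α x t) * tr B β y (t + (j : ZMod p)) +
              tr A α x t * (tr B β y (t + (j : ZMod p)) - tr B β y t) := by ring
        rw [h4]
        refine (norm_add_le _ _).trans ?_
        rw [norm_mul, norm_mul]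
    _ ≤ (U * D) * V + U * (V * D) := by
        rw [Finset.sum_add_distrib]
        exact add_le_add h1 h2
    _ = 2 * D * (U * V) := by ring
    _ = 4 * Real.pi * (j * M / p) * (p * (Real.sqrt A.card * Real.sqrt B.card)) := by
        rw [hUV, hD]
        ring

/-- the averaging inequality -/
theorem INEQ {χ : MulChar (ZMod p) ℂ} (hχ : χ ≠ 1) (A B : Finset (ZMod p)) (α β : ZMod p → ℂ)
    (hα : ∀ a, ‖α a‖ ≤ 1) (hβ : ∀ a, ‖β a‖ ≤ 1) (x y : ZMod p) (M : ℝ) (hM : 0 ≤ M)
    (hA : ∀ a ∈ A, (((a - x).valMinAbs.natAbs : ℕ) : ℝ) ≤ M)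
    (hB : ∀ b ∈ B, (((b - y).valMinAbs.natAbs : ℕ) : ℝ) ≤ M) (h : ℕ) (hh : 0 < h) (κ : ℝ)
    (hκ : 0 ≤ κ) (bad : Finset (ZMod p))
    (hbad : ∀ t ∉ bad, ‖∑ j ∈ range h, ec (j : ZMod p) (x + y) * χ⁻¹ (t + (j : ZMod p))‖ ≤ κ * h) :
    Real.sqrt p * ‖∑ a ∈ A, ∑ b ∈ B, α a * β b * χ (a + b)‖ ≤
      bad.card * (A.card * B.card) +
        (κ + 4 * Real.pi * (h * M / p)) * (p * (Real.sqrt A.card * Real.sqrt B.card)) := by
  set S := ∑ a ∈ A, ∑ b ∈ B, α a * β b * χ (a + b) with hS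
  set F : ZMod p → ℂ := fun t => tr A α x t * tr B β y t with hF
  set z := x + y with hz
  set Q : ℝ := p * (Real.sqrt A.card * Real.sqrt B.card) with hQ
  have hQ0 : 0 ≤ Q := by positivity
  have hi : χ⁻¹ ≠ 1 := by
    intro h
    exact hχ (inv_eq_one.1 h)
  have h1 : S * gaussSum χ⁻¹ (ZMod.stdAddChar (N := p)) = ∑ t : ZMod p, χ⁻¹ t * ec t z * F t :=
    dual hχ A B α β x y
  have hn : Real.sqrt p * ‖S‖ = ‖∑ t : ZMod p, χ⁻¹ t * ec t z * F t‖ := by
    rw [← h1, norm_mul, GSN hi, mul_comm]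
  have h2 : ∀ j : ℕ, ∑ t : ZMod p, χ⁻¹ t * ec t z * F t =
      ∑ t : ZMod p, χ⁻¹ (t + (j : ZMod p)) * ec (t + (j : ZMod p)) z * F (t + (j : ZMod p)) := by
    intro j
    exact (Equiv.sum_comp (Equiv.addRight (j : ZMod p)) fun t => χ⁻¹ t * ec t z * F t).symm
  have h3 : (h : ℂ) * ∑ t : ZMod p, χ⁻¹ t * ec t z * F t =
      (∑ t : ZMod p, ec t z * F t * ∑ j ∈ range h, ec (j : ZMod p) z * χ⁻¹ (t + (j : ZMod p))) +
        ∑ j ∈ range h, ∑ t : ZMod p, χ⁻¹ (t + (j : ZMod p)) * ec (t + (j : ZMod p)) z *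
          (F (t + (j : ZMod p)) - F t) := by
    have h4 : (h : ℂ) * ∑ t : ZMod p, χ⁻¹ t * ec t z * F t =
        ∑ j ∈ range h, ∑ t : ZMod p, χ⁻¹ t * ec t z * F t := by
      rw [Finset.sum_const, Finset.card_range, nsmul_eq_mul]
    rw [h4]
    have h5 : ∑ t : ZMod p, ec t z * F t * ∑ j ∈ range h, ec (j : ZMod p) z * χ⁻¹ (t + (j : ZMod p)) =
        ∑ j ∈ range h, ∑ t : ZMod p, ec t z * F t * (ec (j : ZMod p) z * χ⁻¹ (t + (j : ZMod p))) := by
      rw [Finset.sum_comm]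
      refine Finset.sum_congr rfl fun t _ => ?_
      rw [Finset.mul_sum]
    rw [h5, ← Finset.sum_add_distrib]
    refine Finset.sum_congr rfl fun j _ => ?_
    rw [h2 j, ← Finset.sum_add_distrib]
    refine Finset.sum_congr rfl fun t _ => ?_
    rw [ec_add_left]
    ring
  have hFsum : ∑ t : ZMod p, ‖F t‖ ≤ Q := by
    have h6 : ∑ t : ZMod p, ‖tr A α x t‖ * ‖tr B β y t‖ ≤
        (Real.sqrt p * Real.sqrt A.card) * (Real.sqrt p * Real.sqrt B.card) := by
      refine cs_norm (fun t => tr A α x t) (fun t => tr B β y t) (by positivity) (by positivity) ?_ ?_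
      · rw [mul_pow, Real.sq_sqrt (Nat.cast_nonneg _), Real.sq_sqrt (Nat.cast_nonneg _)]
        exact tr_sq A α hα x
      · rw [mul_pow, Real.sq_sqrt (Nat.cast_nonneg _), Real.sq_sqrt (Nat.cast_nonneg _)]
        exact tr_sq B β hβ y
    have h7 : (Real.sqrt p * Real.sqrt A.card) * (Real.sqrt p * Real.sqrt B.card) = Q := by
      have h3 : Real.sqrt p * Real.sqrt p = p := Real.mul_self_sqrt (Nat.cast_nonneg _)
      rw [hQ]
      calc Real.sqrt p * Real.sqrt A.card * (Real.sqrt p * Real.sqrt B.card) =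
          (Real.sqrt p * Real.sqrt p) * (Real.sqrt A.card * Real.sqrt B.card) := by ring
        _ = p * (Real.sqrt A.card * Real.sqrt B.card) := by rw [h3]
    rw [← h7]
    refine le_trans (le_of_eq ?_) h6
    refine Finset.sum_congr rfl fun t _ => ?_
    rw [hF]
    exact norm_mul _ _
  have hFsup : ∀ t : ZMod p, ‖F t‖ ≤ A.card * B.card := by
    intro t
    rw [hF]
    refine (norm_mul_le _ _).trans ?_
    exact mul_le_mul (tr_sup A α hα x t) (tr_sup B β hβ y t) (norm_nonneg _) (Nat.cast_nonneg _)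
  have hh0 : (0 : ℝ) < h := by exact_mod_cast hh
  have hW : ∀ t : ZMod p, ‖∑ j ∈ range h, ec (j : ZMod p) z * χ⁻¹ (t + (j : ZMod p))‖ ≤ h := by
    intro t
    refine (norm_sum_le _ _).trans ?_
    calc ∑ j ∈ range h, ‖ec (j : ZMod p) z * χ⁻¹ (t + (j : ZMod p))‖ ≤ ∑ j ∈ range h, (1 : ℝ) := by
          refine Finset.sum_le_sum fun j _ => ?_
          rw [norm_mul, ec_norm, one_mul]
          exact mc_norm _ _
      _ = h := by simp
  -- the main term
  have h8 : ‖∑ t : ZMod p, ec t z * F t * ∑ j ∈ range h, ec (j : ZMod p) z * χ⁻¹ (t + (j : ZMod p))‖ ≤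
      h * (bad.card * (A.card * B.card) + κ * Q) := by
    refine (norm_sum_le _ _).trans ?_
    have h9 : ∀ t : ZMod p, ‖ec t z * F t * ∑ j ∈ range h, ec (j : ZMod p) z * χ⁻¹ (t + (j : ZMod p))‖ ≤
        h * ((if t ∈ bad then ((A.card : ℝ) * B.card) else 0) + κ * ‖F t‖) := by
      intro t
      rw [norm_mul, norm_mul, ec_norm, one_mul]
      by_cases ht : t ∈ bad
      · rw [if_pos ht]
        calc ‖F t‖ * ‖∑ j ∈ range h, ec (j : ZMod p) z * χ⁻¹ (t + (j : ZMod p))‖
            ≤ (A.card * B.card) * h :=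
              mul_le_mul (hFsup t) (hW t) (norm_nonneg _) (by positivity)
          _ ≤ h * ((A.card : ℝ) * B.card + κ * ‖F t‖) := by
              have : 0 ≤ h * (κ * ‖F t‖) := by positivity
              nlinarith
      · rw [if_neg ht]
        calc ‖F t‖ * ‖∑ j ∈ range h, ec (j : ZMod p) z * χ⁻¹ (t + (j : ZMod p))‖
            ≤ ‖F t‖ * (κ * h) := mul_le_mul_of_nonneg_left (hbad t ht) (norm_nonneg _)
          _ = h * (0 + κ * ‖F t‖) := by ring
    refine (Finset.sum_le_sum fun t _ => h9 t).trans ?_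
    rw [← Finset.mul_sum, Finset.sum_add_distrib, ← Finset.mul_sum]
    refine mul_le_mul_of_nonneg_left ?_ hh0.le
    refine add_le_add (le_of_eq ?_) (mul_le_mul_of_nonneg_left hFsum hκ)
    rw [Finset.sum_ite_mem, Finset.univ_inter, Finset.sum_const, nsmul_eq_mul]
  -- the error term
  have h10 : ‖∑ j ∈ range h, ∑ t : ZMod p, χ⁻¹ (t + (j : ZMod p)) * ec (t + (j : ZMod p)) z *
      (F (t + (j : ZMod p)) - F t)‖ ≤ h * (4 * Real.pi * (h * M / p) * Q) := by
    refine (norm_sum_le _ _).trans ?_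
    calc ∑ j ∈ range h, ‖∑ t : ZMod p, χ⁻¹ (t + (j : ZMod p)) * ec (t + (j : ZMod p)) z *
          (F (t + (j : ZMod p)) - F t)‖
        ≤ ∑ j ∈ range h, 4 * Real.pi * (h * M / p) * Q := by
          refine Finset.sum_le_sum fun j hj => ?_
          have hj' : (j : ℝ) ≤ h := by exact_mod_cast (Finset.mem_range.1 hj).le
          refine (norm_sum_le _ _).trans ?_
          calc ∑ t : ZMod p, ‖χ⁻¹ (t + (j : ZMod p)) * ec (t + (j : ZMod p)) z *
                (F (t + (j : ZMod p)) - F t)‖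
              ≤ ∑ t : ZMod p, ‖F (t + (j : ZMod p)) - F t‖ := by
                refine Finset.sum_le_sum fun t _ => ?_
                rw [norm_mul, norm_mul, ec_norm, mul_one]
                calc ‖χ⁻¹ (t + (j : ZMod p))‖ * ‖F (t + (j : ZMod p)) - F t‖
                    ≤ 1 * ‖F (t + (j : ZMod p)) - F t‖ :=
                      mul_le_mul_of_nonneg_right (mc_norm _ _) (norm_nonneg _)
                  _ = _ := one_mul _
            _ ≤ 4 * Real.pi * (j * M / p) * Q := tr_prod_dif A B α β hα hβ x y M hM hA hB j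
            _ ≤ 4 * Real.pi * (h * M / p) * Q := by
                have : (j : ℝ) * M / p ≤ h * M / p :=
                  div_le_div_of_nonneg_right (mul_le_mul_of_nonneg_right hj' hM) (Nat.cast_nonneg _)
                have h11 : 4 * Real.pi * (j * M / p) ≤ 4 * Real.pi * (h * M / p) :=
                  mul_le_mul_of_nonneg_left this (by positivity)
                exact mul_le_mul_of_nonneg_right h11 hQ0
      _ = h * (4 * Real.pi * (h * M / p) * Q) := by
          rw [Finset.sum_const, Finset.card_range, nsmul_eq_mul]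
  have h12 : (h : ℝ) * (Real.sqrt p * ‖S‖) ≤
      h * (bad.card * (A.card * B.card) + (κ + 4 * Real.pi * (h * M / p)) * Q) := by
    have h13 : (h : ℝ) * (Real.sqrt p * ‖S‖) = ‖(h : ℂ) * ∑ t : ZMod p, χ⁻¹ t * ec t z * F t‖ := by
      rw [norm_mul, hn, Complex.norm_natCast]
    rw [h13, h3]
    refine (norm_add_le _ _).trans ?_
    refine (add_le_add h8 h10).trans (le_of_eq ?_)
    ring
  exact le_of_mul_le_mul_left h12 hh0

end

end Pool.Agent.PH
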